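import Mathlib
import Pool.Agent.Y234.IT.Defs
import Pool.Agent.Y234.IT.Stm
import Pool.Agent.Y234.IT.Fin1
import Pool.Agent.Y435.IT.Hsns
import Pool.Agent.Y80.IT.CL
import Pool.Agent.Y569.IT.PrMh
import Pool.Agent.Y974.IT.MK
import Pool.Agent.Y319.IT.CY
import Pool.Agent.Y592.IT.TB
import Pool.Agent.Y646.IT.GR
import Pool.Agent.Y115.IT.El
import Pool.Agent.Y90.IT.NN1
import Pool.Agent.Y431.IT.NN2
import Pool.Agent.Y917.IT.PT
import Pool.Agent.Y117.IT.Num
import Pool.Agent.Y41.IT.UP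
import Pool.Agent.Y441.IT.HP
import Pool.Agent.Y239.IT.LO
import Pool.Agent.Y259.IT.Ir
import Pool.Agent.Y348.IT.Al
import Pool.Agent.Y448.IT.Sm
import Pool.Agent.Y678.IT.EQ

/-!
# The Iitaka dimensions of the classes of products of hyperplanes are exactly the rationals `≥ 1`

`X = ℙ^(n_0) × ... × ℙ^(n_(s-1))`, all `n_i ≥ 2`, `α` the numerical class of a product of
hyperplanes (a cycle of dimension `K = ∑ (n_i - 1)`). The definitions are in
`Pool.Agent.Y234.IT.Defs`.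

* the mobility count of `m α` exists and is of the exact order `m ^ κ`,
  `κ = max 1 (1 / ∑ 1 / n_i)`, so the Iitaka dimension of `α` is `κ`;
* hence the Iitaka dimensions of these classes are exactly the rational numbers `≥ 1`.

Parts of the proof are due to helpers 41, 80, 90, 115, 117, 239, 259, 319, 348, 431, 435, 441, 448,
569, 592, 646, 678, 917, 974.
-/

set_option autoImplicit false

open Filter Pool.Agent.Y234.IT

universe u

namespace Pool.Agent.Results.MP_b7b517_ag.RationalValues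

lemma cy : St_CY.{u} :=
  Pool.Agent.Y319.IT.t_CY (Pool.Agent.Y974.IT.t_MK Pool.Agent.Y435.IT.t_NS
    (Pool.Agent.Y80.IT.t_CL Pool.Agent.Y441.IT.HP.t_HP Pool.Agent.Y435.IT.t_HS)
    Pool.Agent.Y569.IT.t_PR Pool.Agent.Y569.IT.t_MH)

lemma up : St_UP.{u} :=
  Pool.Agent.Y41.IT.t_UP
    (Pool.Agent.Y115.IT.t_EL Pool.Agent.Y592.IT.t_TB Pool.Agent.Y239.IT.LO.t_LO
      (Pool.Agent.Y646.IT.t_GR Pool.Agent.Y348.IT.t_AL Pool.Agent.Y448.IT.t_SM))
    Pool.Agent.Y259.IT.t_IR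
    (Pool.Agent.Y678.IT.EQ.t_EQ Pool.Agent.Y435.IT.t_NS
      (Pool.Agent.Y80.IT.t_CL Pool.Agent.Y441.IT.HP.t_HP Pool.Agent.Y435.IT.t_HS)
      Pool.Agent.Y569.IT.t_PR Pool.Agent.Y569.IT.t_MH)
    Pool.Agent.Y90.IT.t_NN1 Pool.Agent.Y431.IT.t_NN2 Pool.Agent.Y917.IT.t_PT
    Pool.Agent.Y117.IT.t_CB

lemma iff_kap (k : Type u) [Field k] [IsAlgClosed k] {s : ℕ} (n : Fin s → ℕ) (hs : 1 ≤ s)
    (hn : ∀ i, 2 ≤ n i) (r : ℝ) :
    0 < limsup (fun m : ℕ => (((mc k n (m • alpha n) : ℝ) / (m : ℝ) ^ r : ℝ) : EReal)) atTop ↔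
      r ≤ kap n :=
  limsup_pos_iff cy up Pool.Agent.Y117.IT.t_LB k n hs hn r

lemma dim_eq (k : Type u) [Field k] [IsAlgClosed k] {s : ℕ} (n : Fin s → ℕ) (hs : 1 ≤ s)
    (hn : ∀ i, 2 ≤ n i) : IitakaDim k n (alpha n) (kap n) :=
  ⟨(iff_kap k n hs hn _).mpr le_rfl, fun r hr => (iff_kap k n hs hn r).mp hr⟩

/-- **The Iitaka dimensions of products of hyperplanes.** Let `k` be algebraically closed,
`X = ℙ^(n_0) × ... × ℙ^(n_(s-1))` with `s ≥ 1` and all `n_i ≥ 2`, and `α` the numerical class of a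
product of hyperplanes.

(1) The mobility count of `m α` is attained for all `m`, the Iitaka dimension of `α` exists and is
`max 1 (1 / ∑ 1 / n_i)`; with the other normalisation `mc(m α) / m ^ (r / s)`, `s` the codimension,
it is `s` times this number.

(2) The real numbers that occur as Iitaka dimensions of these classes are exactly the rational
numbers `≥ 1`.

(3) For `ℙ² × ℙ³` the Iitaka dimension is `6 / 5`, which is not an integer (and `12 / 5` with the
other normalisation). -/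
theorem result (k : Type u) [Field k] [IsAlgClosed k] :
    (∀ (s : ℕ) (n : Fin s → ℕ), 1 ≤ s → (∀ i, 2 ≤ n i) →
      (∀ m : ℕ, IsGreatest {b : ℕ | GenOn k n b (m • alpha n)} (mc k n (m • alpha n))) ∧
      IitakaDim k n (alpha n) (max 1 (1 / ∑ i, (1 / (n i : ℝ)))) ∧
      IsGreatest {r : ℝ | 0 < limsup (fun m : ℕ =>
        (((mc k n (m • alpha n) : ℝ) / (m : ℝ) ^ (r / (s : ℝ)) : ℝ) : EReal)) atTop}
        ((s : ℝ) * max 1 (1 / ∑ i, (1 / (n i : ℝ))))) ∧
    (∀ r : ℝ, (∃ (s : ℕ) (n : Fin s → ℕ), 1 ≤ s ∧ (∀ i, 2 ≤ n i) ∧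
      IitakaDim k n (alpha n) r) ↔ ∃ q : ℚ, 1 ≤ q ∧ r = (q : ℝ)) ∧
    (IitakaDim k ![2, 3] (alpha ![2, 3]) (6 / 5) ∧ (∀ z : ℤ, (z : ℝ) ≠ 6 / 5) ∧
      ∀ z : ℤ, (z : ℝ) ≠ 2 * (6 / 5)) := by
  refine ⟨?_, ?_, ?_, ?_, ?_⟩
  · intro s n hs hn
    have hs0 : (0 : ℝ) < s := by exact_mod_cast hs
    refine ⟨fun m => mc_greatest cy up k n hs hn m, dim_eq k n hs hn, ?_, ?_⟩
    · refine (iff_kap k n hs hn _).mpr (le_of_eq ?_)
      rw [mul_div_assoc, mul_div_cancel₀]
      · rfl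
      · exact hs0.ne'
    · intro r hr
      have h1 := (iff_kap k n hs hn (r / s)).mp hr
      rw [div_le_iff₀ hs0, mul_comm] at h1
      exact h1
  · intro r
    constructor
    · rintro ⟨s, n, hs, hn, h⟩
      obtain ⟨q, hq, hq'⟩ := kap_rat n
      exact ⟨q, hq, (h.unique (dim_eq k n hs hn)).trans hq'⟩
    · rintro ⟨q, hq, rfl⟩
      have hb : 1 ≤ q.den := q.pos
      have hnum : (q.den : ℤ) ≤ q.num := by
        have h1 : (1 : ℚ) ≤ q.num / q.den := by rw [Rat.num_div_den]; exact hq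
        rw [le_div_iff₀ (by exact_mod_cast q.pos), one_mul] at h1
        exact_mod_cast h1
      obtain ⟨a, ha⟩ : ∃ a : ℕ, q.num = a := Int.eq_ofNat_of_zero_le (by omega)
      have hab : q.den ≤ a := by omega
      refine ⟨2 * q.den, fun _ => 2 * a, by omega, fun _ => by show 2 ≤ 2 * a; omega, ?_⟩
      have h1 := dim_eq k (fun _ : Fin (2 * q.den) => 2 * a) (by omega) (fun _ => by show 2 ≤ 2 * a; omega)
      rw [kap_const a q.den hb hab] at h1
      have h2 : (q : ℝ) = (a : ℝ) / q.den := by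
        have h3 : (q : ℝ) = ((q.num / q.den : ℚ) : ℝ) := by rw [Rat.num_div_den]
        rw [h3, ha]
        push_cast
        rfl
      rw [h2]
      exact h1
  · have h1 := dim_eq k ![2, 3] (by norm_num) (by intro i; fin_cases i <;> simp)
    have h2 : kap ![2, 3] = 6 / 5 := by
      unfold kap
      rw [Fin.sum_univ_two]
      norm_num
    rw [h2] at h1
    exact h1
  · intro z hz
    have h1 : (5 * z : ℝ) = 6 := by rw [hz]; norm_num
    have h2 : 5 * z = 6 := by exact_mod_cast h1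
    omega
  · intro z hz
    have h1 : (5 * z : ℝ) = 12 := by rw [hz]; norm_num
    have h2 : 5 * z = 12 := by exact_mod_cast h1
    omega

end Pool.Agent.Results.MP_b7b517_ag.RationalValues
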